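import Pool.Agent.N249.Final
set_option autoImplicit false

/-!
# The endpoint orthonormal Strichartz estimate with Lorentz coefficients holds

For every `d ≥ 2`, with `p = (d+1)/d` and `q = (d+1)/(d-1)`, there is a constant `C` depending on
`d` only with `‖∑ⱼ λⱼ |e^{itΔ} fⱼ|²‖_{L^p_t L^q_x} ≤ C ‖λ‖_{ℓ^{p,1}}` for every orthonormal system
`(fⱼ)` in `L²(ℝ^d)` and every `λ` in `ℓ^{p,1}`.
-/

namespace Pool.Agent.Results.MP_dacecb_an.EndpointHolds

open MeasureTheory Filter FourierTransform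
open scoped ENNReal NNReal Topology

section
variable (E : Type) [NormedAddCommGroup E] [InnerProductSpace ℝ E] [FiniteDimensional ℝ E]
  [MeasurableSpace E] [BorelSpace E]

/-- The Hilbert space `L²(E; ℂ)` (Lebesgue measure on the Euclidean space `E`). -/
def L2 : Type := Lp ℂ 2 (volume : Measure E)

/-- The norm of `L²`. -/
noncomputable instance l2norm : NormedAddCommGroup (L2 E) :=
  Lp.instNormedAddCommGroup (E := ℂ) (p := 2) (μ := (volume : Measure E))

/-- The inner product of `L²`. -/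
noncomputable instance l2inner : InnerProductSpace ℂ (L2 E) :=
  L2.innerProductSpace (𝕜 := ℂ) (E := ℂ) (μ := (volume : Measure E))

/-- The Fourier transform on `L²`, a unitary operator. Mathlib's convention is
`𝓕 f (w) = ∫ e^{-2πi⟨x,w⟩} f(x) dx`, so the transform `∫ e^{-i⟨x,ξ⟩} f(x) dx` is the value of
`𝓕 f` at `w = ξ/2π`. -/
noncomputable def fourierEquiv : L2 E ≃ₗᵢ[ℂ] L2 E := Lp.fourierTransformₗᵢ E ℂ

variable {E}

/-- The function (defined almost everywhere) represented by an element of `L²`. -/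
noncomputable def fn (u : L2 E) : E → ℂ := ((show Lp ℂ 2 (volume : Measure E) from u) : E → ℂ)

/-- The class in `L²` of a square integrable function (zero if it is not square integrable). -/
noncomputable def cls (f : E → ℂ) : L2 E := by
  classical
  exact if h : MemLp f 2 (volume : Measure E) then h.toLp f else (0 : L2 E)

/-- The multiplier `e^{-it|ξ|²}` at the frequency `ξ = 2πw`. -/
noncomputable def multiplier (t : ℝ) (w : E) : ℂ :=
  Complex.exp (-(Complex.I * t * (‖(2 * Real.pi) • w‖ ^ 2 : ℝ)))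

/-- The free Schrödinger propagator `e^{itΔ}` on `L²`: the Fourier transform of `e^{itΔ} f` is
`e^{-it|ξ|²}` times the Fourier transform of `f`. -/
noncomputable def propagator (t : ℝ) (f : L2 E) : L2 E :=
  (fourierEquiv E).symm (cls (fun w => multiplier t w * fn (fourierEquiv E f) w))

end

/-- The decreasing rearrangement of `|lam 0|, |lam 1|, …`; `star lam n` is its `(n+1)`-st entry
`λ*_{n+1}`, the least `s ≥ 0` such that at most `n` of the `|lam j|` exceed `s`. -/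
noncomputable def star (lam : ℕ → ℂ) (n : ℕ) : ℝ :=
  sInf {s : ℝ | 0 ≤ s ∧ {j | s < ‖lam j‖}.encard ≤ n}

/-- The Lorentz norm `‖lam‖_{ℓ^{α,1}} = ∑_{j ≥ 1} j^{1/α - 1} λ*_j` (possibly infinite). -/
noncomputable def lorentzNorm (α : ℝ) (lam : ℕ → ℂ) : ℝ≥0∞ :=
  ∑' n : ℕ, ENNReal.ofReal (((n : ℝ) + 1) ^ (1 / α - 1) * star lam n)

section
variable {E : Type} [NormedAddCommGroup E] [InnerProductSpace ℝ E] [FiniteDimensional ℝ E]
  [MeasurableSpace E] [BorelSpace E]

/-- The mixed norm `‖F‖_{L^p_t L^q_x} = (∫ ‖F(t,·)‖_{L^q}^p dt)^{1/p}`. -/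
noncomputable def mixedNorm (p q : ℝ) (F : ℝ → E → ℂ) : ℝ≥0∞ :=
  (∫⁻ t : ℝ, eLpNorm (F t) (ENNReal.ofReal q) volume ^ p) ^ (1 / p)

/-- The density `∑ⱼ lam j |e^{itΔ} f_j (x)|²`. -/
noncomputable def density (lam : ℕ → ℂ) (f : ℕ → L2 E) (t : ℝ) (x : E) : ℂ :=
  ∑' j, lam j * ((‖fn (propagator t (f j)) x‖ ^ 2 : ℝ) : ℂ)

/-- For a.e. `t` and a.e. `x` the series `∑ⱼ lam j |e^{itΔ} f_j (x)|²` converges absolutely. -/
def SeriesConverges (lam : ℕ → ℂ) (f : ℕ → L2 E) : Prop :=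
  ∀ᵐ t : ℝ, ∀ᵐ x : E, Summable fun j => lam j * ((‖fn (propagator t (f j)) x‖ ^ 2 : ℝ) : ℂ)

/-- For every `t` the function `F t` agrees a.e. with `G (t, ·)`, for one jointly measurable
function `G`, and `t ↦ ‖F t‖_{L^q}` is measurable. -/
def JointlyMeasurable (q : ℝ) (F : ℝ → E → ℂ) : Prop :=
  (∃ G : ℝ × E → ℂ, Measurable G ∧ ∀ t : ℝ, ∀ᵐ x : E, G (t, x) = F t x) ∧
  Measurable (fun t : ℝ => eLpNorm (F t) (ENNReal.ofReal q) volume)

/-- The estimate of `(E_d)` with the constant `C`, for exponents `p` and `q`, together with the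
convergence of the series and the measurability of its sum. -/
def EstimateHolds (E : Type) [NormedAddCommGroup E] [InnerProductSpace ℝ E]
    [FiniteDimensional ℝ E] [MeasurableSpace E] [BorelSpace E] (p q : ℝ) (C : ℝ≥0) : Prop :=
  ∀ f : ℕ → L2 E, Orthonormal ℂ f →
    ∀ lam : ℕ → ℂ, Tendsto lam atTop (𝓝 0) → lorentzNorm p lam < ∞ →
      SeriesConverges lam f ∧ JointlyMeasurable q (density lam f) ∧
        mixedNorm p q (density lam f) ≤ C * lorentzNorm p lam

end

/-- Check of the definition of `star`: if `σ` enumerates injectively a set of indices containing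
all `j` with `lam j ≠ 0`, in such an order that `|lam (σ 0)| ≥ |lam (σ 1)| ≥ …`, then
`star lam n = |lam (σ n)|`. -/
theorem star_eq (lam : ℕ → ℂ) (σ : ℕ → ℕ) (hσ : Function.Injective σ)
    (hs : ∀ j, lam j ≠ 0 → j ∈ Set.range σ) (ha : Antitone fun n => ‖lam (σ n)‖) (n : ℕ) :
    star lam n = ‖lam (σ n)‖ := by
  unfold star
  apply le_antisymm
  · refine csInf_le ⟨0, fun s hs => hs.1⟩ ⟨norm_nonneg _, ?_⟩
    have hsub : {j | ‖lam (σ n)‖ < ‖lam j‖} ⊆ σ '' (Set.Iio n) := by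
      intro j hj
      have hj0 : lam j ≠ 0 := by
        intro h0
        have : ‖lam (σ n)‖ < 0 := by simpa [h0] using hj
        exact absurd this (not_lt.mpr (norm_nonneg _))
      obtain ⟨m, rfl⟩ := hs j hj0
      refine ⟨m, ?_, rfl⟩
      by_contra hm
      exact absurd hj (not_lt.mpr (ha (not_lt.mp hm)))
    refine (Set.encard_le_encard hsub).trans ?_
    refine (Set.encard_image_le σ _).trans ?_
    rw [← Finset.coe_Iio, Set.encard_coe_eq_coe_finsetCard, Nat.card_Iio]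
  · refine le_csInf ⟨‖lam (σ 0)‖, norm_nonneg _, ?_⟩ ?_
    · have hempty : {j | ‖lam (σ 0)‖ < ‖lam j‖} = ∅ := by
        ext j
        simp only [Set.mem_ofPred_eq, Set.mem_empty_iff_false, iff_false, not_lt]
        by_cases hj : lam j = 0
        · rw [hj, norm_zero]; exact norm_nonneg _
        · obtain ⟨m, rfl⟩ := hs j hj
          exact ha (Nat.zero_le m)
      rw [hempty]; simp
    · rintro s ⟨_, hs2⟩
      by_contra hlt
      rw [not_le] at hlt
      have hsub : σ '' (Set.Iio (n + 1)) ⊆ {j | s < ‖lam j‖} := by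
        rintro _ ⟨m, hm, rfl⟩
        exact lt_of_lt_of_le hlt (ha (Nat.lt_succ_iff.mp hm))
      have h1 := (Set.encard_le_encard hsub).trans hs2
      rw [hσ.encard_image, ← Finset.coe_Iio, Set.encard_coe_eq_coe_finsetCard, Nat.card_Iio] at h1
      have h2 : n + 1 ≤ n := by exact_mod_cast h1
      omega

theorem fn_propagator {d : ℕ} (t : ℝ)
    (f : Lp ℂ 2 (volume : Measure (EuclideanSpace ℝ (Fin d)))) :
    fn (E := EuclideanSpace ℝ (Fin d)) (propagator t f) =
      (Pool.Agent.N249.Ed.PP le_rfl t (𝓕 f) : EuclideanSpace ℝ (Fin d) → ℂ) := by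
  have hm : (fun w => multiplier t w * fn (fourierEquiv (EuclideanSpace ℝ (Fin d)) f) w) =
      fun w => Pool.Agent.N249.Ed.mm 0 t w * (𝓕 f : Lp ℂ 2 volume) w := by
    funext w
    have h1 : multiplier t w = Pool.Agent.N249.Ed.mm 0 t w := by
      unfold multiplier Pool.Agent.N249.Ed.mm Pool.Agent.N249.Ed.aa
      rw [norm_smul, Real.norm_of_nonneg (by positivity)]
      congr 1
      push_cast
      ring
    rw [h1]
    rfl
  have hcls : cls (fun w => multiplier t w * fn (fourierEquiv (EuclideanSpace ℝ (Fin d)) f) w) =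
      (Pool.Agent.N249.Ed.memLp_mm_mul le_rfl t (𝓕 f)).toLp _ := by
    unfold cls
    rw [hm]
    exact dif_pos (Pool.Agent.N249.Ed.memLp_mm_mul le_rfl t (𝓕 f))
  have h2 : propagator (E := EuclideanSpace ℝ (Fin d)) t f =
      Pool.Agent.N249.Ed.PP le_rfl t (𝓕 f) := by
    unfold propagator
    rw [hcls]
    rfl
  rw [h2]
  rfl

/-- **The endpoint estimate `(E_d)` holds in every dimension `d ≥ 2`.** -/
theorem result : ∀ d : ℕ, 2 ≤ d → ∃ C : ℝ≥0,
    EstimateHolds (EuclideanSpace ℝ (Fin d)) (((d : ℝ) + 1) / d) (((d : ℝ) + 1) / (d - 1)) C := by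
  intro d hd
  obtain ⟨k, rfl⟩ : ∃ k : ℕ, d = k + 1 := ⟨d - 1, by omega⟩
  have hk : 1 ≤ k := by omega
  have hk0 : (0 : ℝ) < k := by exact_mod_cast hk
  refine ⟨(Pool.Agent.N249.Ed.KK ((1 / (4 * Real.pi)) ^ (k + 1)) k).toNNReal,
    fun (f : ℕ → Lp ℂ 2 (volume : Measure (EuclideanSpace ℝ (Fin (k + 1))))) hf lam hlam hL => ?_⟩
  have hf' : Orthonormal ℂ f := hf
  have hh : Orthonormal ℂ (fun j => 𝓕 (f j)) :=
    hf'.comp_linearIsometryEquiv (Lp.fourierTransformₗᵢ (EuclideanSpace ℝ (Fin (k + 1))) ℂ)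
  have e1 : (1 : ℝ) / ((((k + 1 : ℕ) : ℝ) + 1) / ((k + 1 : ℕ) : ℝ)) - 1 = -(1 / ((k : ℝ) + 2)) := by
    push_cast
    field_simp
    ring
  have hLeq : lorentzNorm ((((k + 1 : ℕ) : ℝ) + 1) / ((k + 1 : ℕ) : ℝ)) lam =
      ∑' n : ℕ, ENNReal.ofReal (((n : ℝ) + 1) ^ (-(1 / ((k : ℝ) + 2))) *
        Pool.Agent.N249.Ed.rearr lam n) := by
    unfold lorentzNorm
    rw [e1]
    rfl
  obtain ⟨h1, h2, h3, h4⟩ := Pool.Agent.N249.Ed.final_raw hk (fun j => 𝓕 (f j)) hh lam hlam _ hLeq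
    hL.ne ((((k + 1 : ℕ) : ℝ) + 1) / ((k + 1 : ℕ) : ℝ))
    ((((k + 1 : ℕ) : ℝ) + 1) / (((k + 1 : ℕ) : ℝ) - 1))
    (by push_cast; ring) (by push_cast; ring)
  have hfn : ∀ t j, fn (E := EuclideanSpace ℝ (Fin (k + 1))) (propagator t (f j)) =
      (Pool.Agent.N249.Ed.PP le_rfl t (𝓕 (f j)) : EuclideanSpace ℝ (Fin (k + 1)) → ℂ) :=
    fun t j => fn_propagator t (f j)
  have hden : ∀ t : ℝ, density (E := EuclideanSpace ℝ (Fin (k + 1))) lam f t =
      fun x : EuclideanSpace ℝ (Fin (k + 1)) =>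
        ∑' j, lam j * ((‖Pool.Agent.N249.Ed.PP le_rfl t (𝓕 (f j)) x‖ ^ 2 : ℝ) : ℂ) := by
    intro t
    funext x
    unfold density
    simp only [hfn]
  refine ⟨?_, ⟨?_, ?_⟩, ?_⟩
  · unfold SeriesConverges
    simp only [hfn]
    exact h1
  · obtain ⟨G, hG1, hG2⟩ := h2
    refine ⟨G, hG1, fun t => ?_⟩
    rw [hden t]
    exact hG2 t
  · simp only [hden]
    exact h3
  · unfold mixedNorm
    simp only [hden]
    exact h4

end Pool.Agent.Results.MP_dacecb_an.EndpointHolds
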